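import Mathlib

/-! Rational points on the curve `1 + r^2 = □`, `r^2 + 49 = □` and on its twist by `2`. -/

namespace Pool.Agent.Lib.MP_e5111b_co

/-- `1 + s^2` and `1 + 49 s^2` are squares. -/
def J (s : ℚ) : Prop := ∃ c d : ℚ, 0 < c ∧ 0 < d ∧ c ^ 2 = 1 + s ^ 2 ∧ d ^ 2 = 1 + 49 * s ^ 2

theorem J_of {s c d : ℚ} (hc : c ^ 2 = 1 + s ^ 2) (hd : d ^ 2 = 1 + 49 * s ^ 2) : J s :=
  ⟨|c|, |d|, abs_pos.2 fun h => by rw [h] at hc; nlinarith [sq_nonneg s],
    abs_pos.2 fun h => by rw [h] at hd; nlinarith [sq_nonneg s], by rwa [sq_abs], by rwa [sq_abs]⟩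

theorem J.fold {s : ℚ} (h : J s) (hs : s ≠ 0) : J (1 / (7 * s)) := by
  obtain ⟨c, d, -, -, hc, hd⟩ := h
  refine J_of (c := d / (7 * s)) (d := c / s) ?_ ?_
  · rw [div_pow, hd]; field_simp; ring
  · rw [div_pow, hc]; field_simp; ring

theorem norm_one_add {x : ℚ} (h : padicNorm 2 x < 1) : padicNorm 2 (1 + x) = 1 := by
  rw [padicNorm.add_eq_max_of_ne (by rw [padicNorm.one]; exact h.ne'), padicNorm.one,
    max_eq_left h.le]

theorem norm_seven : padicNorm 2 7 = 1 :=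
  (padicNorm.nat_eq_one_iff (p := 2) 7).2 (by decide)

theorem J.double {s : ℚ} (h : J s) (hs : 0 < s) (hn : padicNorm 2 s < 1) :
    ∃ t, J t ∧ 0 < t ∧ padicNorm 2 t = padicNorm 2 s / 2 ∧ (1 / 3 ≤ s → s ≤ 3 / 7 → 3 / 7 < t) := by
  obtain ⟨c, d, hc0, hd0, hc, hd⟩ := h
  have n0 := padicNorm.nonneg (p := 2) s
  have n49 : padicNorm 2 49 = 1 := by
    rw [show (49 : ℚ) = 7 * 7 by norm_num, padicNorm.mul, norm_seven, one_mul]
  have n1 : ∀ x : ℚ, 0 ≤ padicNorm 2 x := padicNorm.nonneg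
  have nc : padicNorm 2 c = 1 := by
    have := norm_one_add (x := s ^ 2) (by rw [sq, padicNorm.mul]; nlinarith)
    rw [← hc, sq, padicNorm.mul] at this
    nlinarith [n1 c]
  have nd : padicNorm 2 d = 1 := by
    have := norm_one_add (x := 49 * s ^ 2) (by
      rw [sq, padicNorm.mul, padicNorm.mul, n49]; nlinarith)
    rw [← hd, sq, padicNorm.mul] at this
    nlinarith [n1 d]
  have ne : padicNorm 2 (1 - 49 * s ^ 4) = 1 := by
    rw [sub_eq_add_neg]
    refine norm_one_add ?_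
    rw [padicNorm.neg, show s ^ 4 = s * s * (s * s) by ring]
    simp only [padicNorm.mul, n49]
    have : padicNorm 2 s * padicNorm 2 s < 1 := by nlinarith
    nlinarith [mul_nonneg n0 n0]
  have e0 : 1 - 49 * s ^ 4 ≠ 0 := fun h => by rw [h, padicNorm.zero] at ne; exact zero_ne_one ne
  have e1 : 0 < |1 - 49 * s ^ 4| := abs_pos.2 e0
  have e2 : (2 * s * c * d / |1 - 49 * s ^ 4|) ^ 2 =
      4 * s ^ 2 * (1 + s ^ 2) * (1 + 49 * s ^ 2) / (1 - 49 * s ^ 4) ^ 2 := by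
    rw [div_pow, sq_abs, ← hc, ← hd]; ring
  refine ⟨2 * s * c * d / |1 - 49 * s ^ 4|,
    J_of (c := (1 + 2 * s ^ 2 + 49 * s ^ 4) / (1 - 49 * s ^ 4))
      (d := (1 + 98 * s ^ 2 + 49 * s ^ 4) / (1 - 49 * s ^ 4)) ?_ ?_, by positivity, ?_,
    fun h1 h2 => ?_⟩
  · rw [e2, div_pow, add_div' _ _ _ (pow_ne_zero 2 e0)]; congr 1; ring
  · rw [e2, div_pow, ← mul_div_assoc, add_div' _ _ _ (pow_ne_zero 2 e0)]; congr 1; ring
  · have : padicNorm 2 |1 - 49 * s ^ 4| = 1 := by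
      rcases abs_choice (1 - 49 * s ^ 4) with h | h <;> rw [h]
      · exact ne
      · rwa [padicNorm.neg]
    rw [padicNorm.div, this, padicNorm.mul, padicNorm.mul, padicNorm.mul, nc, nd,
      show padicNorm 2 2 = 2⁻¹ from padicNorm.padicNorm_p_of_prime]
    ring
  · have c1 : 1 ≤ c := by nlinarith [sq_nonneg s]
    have d1 : 1 ≤ d := by nlinarith [sq_nonneg s]
    have s1 := pow_le_pow_left₀ hs.le h2 4
    have s2 := pow_le_pow_left₀ (by norm_num) h1 4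
    rw [lt_div_iff₀ e1]
    have : |1 - 49 * s ^ 4| ≤ 1 := abs_le.2 ⟨by linarith, by linarith⟩
    nlinarith [mul_le_mul c1 d1 zero_le_one hc0.le]

theorem infinite_J : {s : ℚ | J s ∧ 0 < s ∧ s < 1 / 3}.Infinite := by
  have h1 : ∀ n : ℕ, ∃ s, J s ∧ 0 < s ∧ padicNorm 2 s < 1 / (n + 1) := fun n => by
    induction n with
    | zero =>
      refine ⟨12 / 35, J_of (c := 37 / 35) (d := 13 / 5) (by norm_num) (by norm_num),
        by norm_num, ?_⟩
      have a1 : padicNorm 2 35 = 1 := (padicNorm.nat_eq_one_iff (p := 2) 35).2 (by decide)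
      have a2 : padicNorm 2 12 < 1 := (padicNorm.nat_lt_one_iff (p := 2) 12).2 (by decide)
      rw [padicNorm.div, a1]
      simpa using a2
    | succ n ih =>
      obtain ⟨s, a1, a2, a3⟩ := ih
      have a4 : (0 : ℚ) ≤ n := Nat.cast_nonneg n
      obtain ⟨t, b1, b2, b3, -⟩ := a1.double a2 (a3.trans_le (by
        rw [div_le_one (by linarith)]; linarith))
      refine ⟨t, b1, b2, ?_⟩
      rw [lt_div_iff₀ (by linarith)] at a3
      push_cast
      rw [b3, lt_div_iff₀ (by linarith)]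
      nlinarith [padicNorm.nonneg (p := 2) s]
  have h2 : ∀ t : ℚ, J t → 3 / 7 < t → ∀ n : ℕ, padicNorm 2 t < 1 / (n + 1) →
      ∃ s ∈ {s : ℚ | J s ∧ 0 < s ∧ s < 1 / 3}, n < padicNorm 2 s + 1 / padicNorm 2 s :=
    fun t a1 a2 n a3 => by
      have a4 : 0 < t := by linarith
      have a5 : 0 < padicNorm 2 t := (padicNorm.nonneg t).lt_of_ne' (padicNorm.nonzero a4.ne')
      refine ⟨_, ⟨a1.fold a4.ne', by positivity, by rw [div_lt_iff₀ (by positivity)]; linarith⟩, ?_⟩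
      rw [padicNorm.div, padicNorm.one, padicNorm.mul, norm_seven, one_mul, one_div_one_div]
      rw [lt_one_div a5 (by positivity)] at a3
      linarith
  refine Set.Infinite.of_image (fun s => padicNorm 2 s + 1 / padicNorm 2 s)
    (Set.infinite_of_forall_exists_gt fun x => ?_)
  obtain ⟨n, hn⟩ := exists_nat_ge x
  suffices h : ∃ s ∈ {s : ℚ | J s ∧ 0 < s ∧ s < 1 / 3}, n < padicNorm 2 s + 1 / padicNorm 2 s by
    obtain ⟨s, a1, a2⟩ := h
    exact ⟨_, ⟨s, a1, rfl⟩, hn.trans_lt a2⟩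
  obtain ⟨s, a1, a2, a3⟩ := h1 n
  have a5 : 0 < padicNorm 2 s := (padicNorm.nonneg s).lt_of_ne' (padicNorm.nonzero a2.ne')
  rcases lt_or_ge s (1 / 3) with h | h
  · refine ⟨s, ⟨a1, a2, h⟩, ?_⟩
    rw [lt_one_div a5 (by positivity)] at a3
    linarith
  rcases lt_or_ge (3 / 7) s with h' | h'
  · exact h2 s a1 h' n a3
  · have a4 : (0 : ℚ) ≤ n := Nat.cast_nonneg n
    obtain ⟨t, b1, -, b3, b4⟩ := a1.double a2 (a3.trans_le (by
      rw [div_le_one (by linarith)]; linarith))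
    exact h2 t b1 (b4 h h') n (by linarith)

/-- `δ (1 + r^2)` and `δ (r^2 + 49)` are squares. -/
def S (δ r : ℚ) : Prop := ∃ c e : ℚ, c ^ 2 = δ * (1 + r ^ 2) ∧ e ^ 2 = δ * (r ^ 2 + 49)

theorem S.neg {δ r : ℚ} (h : S δ r) : S δ (-r) := by simpa only [S, neg_sq] using h

theorem S.fold {δ r : ℚ} (h : S δ r) (hr : r ≠ 0) : S δ (7 / r) := by
  obtain ⟨c, e, hc, he⟩ := h
  refine ⟨e / r, 7 * c / r, ?_, ?_⟩
  · rw [div_pow, he]; field_simp; ring
  · rw [div_pow, mul_pow, hc]; field_simp; ring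

theorem infinite_S1 : {r : ℚ | S 1 r ∧ 0 < r ∧ r ^ 2 < 7}.Infinite := by
  refine Set.infinite_of_injOn_mapsTo (f := fun s => 7 * s) (fun s _ t _ h => by simpa using h)
    ?_ infinite_J
  rintro s ⟨⟨c, d, _, _, hc, hd⟩, h1, h2⟩
  refine ⟨⟨d, 7 * c, ?_, ?_⟩, by linarith, by nlinarith⟩
  · rw [hd]; ring
  · rw [mul_pow, hc]; ring

theorem infinite_S2 : {r : ℚ | S 2 r ∧ 1 < r ∧ r ^ 2 < 7}.Infinite := by
  choose! c d c0 d0 hc hd using fun s (h : J s) => h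
  have h1 : {r : ℚ | S 2 r ∧ 1 < r ∧ r < 7}.Infinite := by
    refine Set.infinite_of_injOn_mapsTo (f := fun s => (c s * d s + 10 * s) / (1 - s ^ 2))
      (StrictMonoOn.injOn ?_) ?_ infinite_J
    · rintro s ⟨a1, a2, a3⟩ t ⟨b1, b2, b3⟩ h
      have e1 : s ^ 2 < t ^ 2 := by nlinarith
      have e2 : c s < c t := lt_of_pow_lt_pow_left₀ 2 (c0 t b1).le (by rw [hc s a1, hc t b1]; linarith)
      have e3 : d s < d t := lt_of_pow_lt_pow_left₀ 2 (d0 t b1).le (by rw [hd s a1, hd t b1]; linarith)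
      have e4 := mul_pos (c0 s a1) (d0 s a1)
      exact div_lt_div₀ (by nlinarith [mul_lt_mul'' e2 e3 (c0 s a1).le (d0 s a1).le])
        (by linarith) (by nlinarith [mul_pos (c0 t b1) (d0 t b1)]) (by nlinarith)
    · rintro s ⟨a1, a2, a3⟩
      have e0 : 0 < 1 - s ^ 2 := by nlinarith
      have e1 := hc s a1
      have e2 := hd s a1
      have c1 : 1 ≤ c s := by nlinarith [c0 s a1]
      have d1 : 1 ≤ d s := by nlinarith [d0 s a1]
      refine ⟨⟨(2 * d s + 10 * s * c s) / (1 - s ^ 2), (10 * c s + 2 * s * d s) / (1 - s ^ 2),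
        ?_, ?_⟩, ?_, ?_⟩
      · field_simp
        linear_combination 2 * (50 * s ^ 2 - d s ^ 2) * e1 + 2 * (1 - s ^ 2) * e2
      · field_simp
        linear_combination 2 * (50 - d s ^ 2) * e1 + 2 * (s ^ 2 - 1) * e2
      · rw [lt_div_iff₀ e0]
        nlinarith [mul_le_mul c1 d1 zero_le_one (c0 s a1).le]
      · rw [div_lt_iff₀ e0]
        nlinarith [sq_nonneg (2 * c s - d s)]
  intro hfin
  refine h1 ((hfin.union (hfin.image fun r => 7 / r)).subset fun r ⟨a1, a2, a3⟩ => ?_)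
  have a0 : 0 < r := by linarith
  rcases lt_trichotomy (r ^ 2) 7 with h | h | h
  · exact Or.inl ⟨a1, a2, h⟩
  · have : IsSquare (7 : ℕ) := Rat.isSquare_natCast_iff.1 ⟨r, by push_cast; linarith⟩
    exact absurd this (by decide +kernel)
  · refine Or.inr ⟨7 / r, ⟨a1.fold a0.ne', by rw [lt_div_iff₀ a0]; linarith, ?_⟩, by field_simp⟩
    rw [div_pow, div_lt_iff₀ (by positivity)]
    linarith

theorem exists_chain {Y : Set ℚ} (hY : Y.Infinite) {y : ℚ} (hy : ∀ r ∈ Y, y < r) (n : ℕ) :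
    ∃ z : ℕ → ℚ, z 0 = y ∧ (∀ i, 0 < i → z i ∈ Y) ∧ ∀ i j, i < j → j ≤ n → z i < z j := by
  obtain ⟨t, ht, hc⟩ := hY.exists_subset_card_eq (n + 1)
  let e := t.orderEmbOfFin hc
  have he : ∀ i, e i ∈ Y := fun i => ht (t.orderEmbOfFin_mem hc i)
  refine ⟨fun i => if i = 0 then y else e ⟨min i n, by omega⟩, if_pos rfl,
    fun i hi => by simp only [if_neg hi.ne']; exact he _, fun i j hij hj => ?_⟩
  simp only [if_neg (by omega : j ≠ 0)]
  split_ifs
  · exact hy _ (he _)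
  · exact e.strictMono (by simp only [Fin.mk_lt_mk]; omega)

end Pool.Agent.Lib.MP_e5111b_co
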