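import Pool.Agent.Lib.MP_e5111b_co.Curve

/-! Convex polygons with extra points on their edges and rational distances. -/

namespace Pool.Agent.Lib.MP_e5111b_co

open Complex

/-- Twice the signed area of a triangle. -/
def ori (p q r : ℂ) : ℝ := (q.re - p.re) * (r.im - p.im) - (q.im - p.im) * (r.re - p.re)

theorem ori_rot (p q r : ℂ) : ori p q r = ori q r p := by simp only [ori]; ring

/-- All distances in `T` are rational. -/
def RD (T : Set ℂ) : Prop := ∀ z ∈ T, ∀ w ∈ T, ∃ q : ℚ, dist z w = q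

/-- A convex polygon with at least `m i` points inside the edge `i` and rational distances. -/
def Good (k : ℕ) (m : ZMod k → ℕ) : Prop := ∃ (v : ZMod k → ℂ) (T : Set ℂ), RD T ∧ (∀ i, v i ∈ T) ∧
  (∀ i j, j ≠ i → j ≠ i + 1 → 0 < ori (v i) (v (i + 1)) (v j)) ∧
  ∀ i, ∃ E : Finset ℂ, m i ≤ E.card ∧ ∀ z ∈ E, z ∈ T ∧ z ∈ openSegment ℝ (v i) (v (i + 1))

theorem Good.rot {k : ℕ} {m : ZMod k → ℕ} (c : ZMod k) (h : Good k fun i => m (i + c)) :
    Good k m := by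
  obtain ⟨v, T, h1, h2, h3, h4⟩ := h
  refine ⟨fun i => v (i - c), T, h1, fun i => h2 _, fun i j a b => ?_, fun i => ?_⟩
  · dsimp only
    rw [add_sub_right_comm]
    exact h3 _ _ (fun e => a (by linear_combination e)) fun e => b (by linear_combination e)
  · simpa only [sub_add_cancel, add_sub_right_comm] using h4 (i - c)

theorem Good.refl {k : ℕ} {m : ZMod k → ℕ} (h : Good k fun i => m (-i - 1)) : Good k m := by
  obtain ⟨v, T, h1, h2, h3, h4⟩ := h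
  refine ⟨fun i => (starRingEnd ℂ) (v (-i)), (starRingEnd ℂ) '' T, ?_, fun i => ⟨_, h2 _, rfl⟩,
    fun i j a b => ?_, fun i => ?_⟩
  · rintro _ ⟨z, hz, rfl⟩ _ ⟨w, hw, rfl⟩
    rw [dist_conj_conj]
    exact h1 z hz w hw
  · have := h3 (-(i + 1)) (-j) (fun e => b (by linear_combination -e))
      fun e => a (by linear_combination -e)
    rw [show -(i + 1) + 1 = -i by ring] at this
    simp only [ori, conj_re, conj_im] at this ⊢
    linarith
  · obtain ⟨E, a1, a2⟩ := h4 (-(i + 1))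
    rw [show -(i + 1) + 1 = -i by ring] at a2
    refine ⟨E.map ⟨_, (starRingEnd ℂ).injective⟩, by
      simpa only [Finset.card_map, neg_neg, add_sub_cancel_right] using a1, fun z hz => ?_⟩
    obtain ⟨w, hw, rfl⟩ := Finset.mem_map.1 hz
    obtain ⟨b1, s, t, hs, ht, hst, rfl⟩ := a2 w hw
    exact ⟨⟨_, b1, rfl⟩, t, s, ht, hs, by linarith, by simp [add_comm]⟩

theorem good_of_seq {n : ℕ} {m : ZMod (n + 3) → ℕ} (w : ℕ → ℂ) {T : Set ℂ} (h1 : RD T)
    (h2 : ∀ i ≤ n + 2, w i ∈ T)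
    (h3 : ∀ i j l, i < j → j < l → l ≤ n + 2 → 0 < ori (w i) (w j) (w l))
    (h4 : ∀ i : ZMod (n + 3), i.val < n + 2 → ∃ E : Finset ℂ, m i ≤ E.card ∧
      ∀ z ∈ E, z ∈ T ∧ z ∈ openSegment ℝ (w i.val) (w (i.val + 1)))
    (h5 : ∃ E : Finset ℂ, m (-1) ≤ E.card ∧
      ∀ z ∈ E, z ∈ T ∧ z ∈ openSegment ℝ (w (n + 2)) (w 0)) : Good (n + 3) m := by
  have a1 : ∀ i : ZMod (n + 3), i.val < n + 2 → (i + 1).val = i.val + 1 := fun i hi => by
    have : (1 : ZMod (n + 3)).val = 1 := ZMod.val_one'' (by omega)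
    rw [ZMod.val_add_of_lt (by omega), this]
  have a2 : ∀ i : ZMod (n + 3), ¬ i.val < n + 2 → i = -1 := fun i hi =>
    ZMod.val_injective _ (by have := i.val_lt; rw [ZMod.val_neg_one]; omega)
  refine ⟨fun i => w i.val, T, h1, fun i => h2 _ (by have := i.val_lt; omega), fun i j a b => ?_,
    fun i => ?_⟩
  · have c1 : j.val ≠ i.val := fun e => a (ZMod.val_injective _ e)
    have c2 : j.val ≠ (i + 1).val := fun e => b (ZMod.val_injective _ e)
    have c3 := j.val_lt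
    dsimp only
    by_cases hi : i.val < n + 2
    · rw [a1 i hi] at c2 ⊢
      rcases lt_or_gt_of_ne c1 with h | h
      · rw [← ori_rot]
        exact h3 _ _ _ h (by omega) (by omega)
      · exact h3 _ _ _ (by omega) (by omega) (by omega)
    · obtain rfl := a2 i hi
      rw [neg_add_cancel, ZMod.val_zero] at c2 ⊢
      rw [ZMod.val_neg_one] at c1 ⊢
      rw [ori_rot]
      exact h3 _ _ _ (by omega) (by omega) le_rfl
  · by_cases hi : i.val < n + 2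
    · simpa only [a1 i hi] using h4 i hi
    · obtain rfl := a2 i hi
      simpa only [neg_add_cancel, ZMod.val_zero, ZMod.val_neg_one] using h5

/-- The point with rational coordinates `x`, `y`. -/
def pt (x y : ℚ) : ℂ := ⟨x, y⟩

theorem pt_dist {x y x' y' : ℚ} (q : ℚ) (h : (x - x') ^ 2 + (y - y') ^ 2 = q ^ 2) :
    ∃ q : ℚ, dist (pt x y) (pt x' y') = q := by
  refine ⟨|q|, ?_⟩
  rw [dist_eq_re_im, Rat.cast_abs, ← Real.sqrt_sq_eq_abs]
  congr 1
  simp only [pt]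
  exact_mod_cast h

theorem pt_ori {x y x' y' x'' y'' : ℚ} (h : 0 < (x' - x) * (y'' - y) - (y' - y) * (x'' - x)) :
    0 < ori (pt x y) (pt x' y') (pt x'' y'') := by
  simp only [ori, pt]
  exact_mod_cast h

theorem pt_seg {x y x' y' x'' y'' : ℚ} (t : ℚ) (h0 : 0 < t) (h1 : t < 1)
    (hx : x'' = x + t * (x' - x)) (hy : y'' = y + t * (y' - y)) :
    pt x'' y'' ∈ openSegment ℝ (pt x y) (pt x' y') :=
  ⟨1 - t, t, by exact_mod_cast sub_pos.2 h1, by exact_mod_cast h0, by ring,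
    Complex.ext (by simp [pt, hx]; ring) (by simp [pt, hy]; ring)⟩

theorem pt_inj {x y y' : ℚ} (h : pt x y = pt x y') : y = y' := by
  simpa [pt] using congrArg im h

/-- A rational point of the unit circle. -/
def cir (r : ℚ) : ℂ := pt (2 * r / (1 + r ^ 2)) ((r ^ 2 - 1) / (1 + r ^ 2))

/-- The circle points of class `δ` and the special points on the axis. -/
def TT (δ : ℚ) : Set ℂ := {z | (∃ r, S δ r ∧ z = cir r) ∨
  ∃ y, (y = 0 ∨ y = 4 / 3 ∨ δ = 1 ∧ (y = 3 / 4 ∨ y = 1)) ∧ z = pt 0 y}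

theorem rd_TT {δ : ℚ} (hδ : 0 < δ) : RD (TT δ) := by
  have h1 : ∀ r c : ℚ, c ^ 2 = δ * (1 + r ^ 2) → c ≠ 0 := fun r c h e => by
    rw [e] at h
    nlinarith [sq_nonneg r, mul_nonneg hδ.le (sq_nonneg r)]
  have h2 : ∀ r : ℚ, 1 + r ^ 2 ≠ 0 := fun r => by positivity
  have h3 : ∀ r y, S δ r → (y = 0 ∨ y = 4 / 3 ∨ δ = 1 ∧ (y = 3 / 4 ∨ y = 1)) →
      ∃ q : ℚ, dist (cir r) (pt 0 y) = q := by
    rintro r y ⟨c, e, hc, he⟩ hy
    have := h2 r
    rcases hy with rfl | rfl | ⟨rfl, rfl | rfl⟩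
    · exact pt_dist 1 (by field_simp; ring)
    · exact pt_dist (e / (3 * c)) (by rw [div_pow e, mul_pow, hc, he]; field_simp; ring)
    · exact pt_dist (e / (4 * c)) (by rw [div_pow e, mul_pow, hc, he]; field_simp; ring)
    · exact pt_dist (2 / c) (by rw [div_pow 2, hc]; field_simp; ring)
  rintro _ (⟨r, hr, rfl⟩ | ⟨y, hy, rfl⟩) _ (⟨t, ht, rfl⟩ | ⟨y', hy', rfl⟩)
  · obtain ⟨c, -, hc, -⟩ := hr
    obtain ⟨c', -, hc', -⟩ := ht
    have := h2 r
    have := h2 t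
    exact pt_dist (2 * δ * (r - t) / (c * c')) (by
      rw [div_pow (2 * δ * _), mul_pow c, hc, hc']; field_simp; ring)
  · exact h3 r y' hr hy'
  · rw [dist_comm]
    exact h3 t y ht hy
  · exact pt_dist (y - y') (by ring)

theorem ori_cir {r s t : ℚ} (h1 : r < s) (h2 : s < t) : 0 < ori (cir r) (cir s) (cir t) := by
  refine pt_ori (lt_of_lt_of_eq (b := 4 * (s - r) * (t - s) * (t - r) /
    ((1 + r ^ 2) * (1 + s ^ 2) * (1 + t ^ 2))) ?_ (by field_simp; ring))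
  have := sub_pos.2 h1
  have := sub_pos.2 h2
  have := sub_pos.2 (h1.trans h2)
  positivity

theorem ori_top {s t : ℚ} (h : s < t) (hs : s ^ 2 < 7) (ht : t ^ 2 < 7) :
    0 < ori (pt 0 (4 / 3)) (cir s) (cir t) := by
  refine pt_ori (lt_of_lt_of_eq (b := 2 * (t - s) * (7 - s * t) /
    (3 * (1 + s ^ 2) * (1 + t ^ 2))) ?_ (by field_simp; ring))
  have := sub_pos.2 h
  have : 0 < 7 - s * t := by nlinarith [sq_nonneg (s - t)]
  positivity

theorem seg_top {δ r : ℚ} (h : S δ r) (h0 : r ≠ 0) (hr : r ^ 2 < 7) : ∃ E : Finset ℂ, 1 ≤ E.card ∧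
    ∀ z ∈ E, z ∈ TT δ ∧ z ∈ openSegment ℝ (pt 0 (4 / 3)) (cir r) := by
  refine ⟨{cir (7 / r)}, by simp, fun z hz => ?_⟩
  rw [Finset.mem_singleton.1 hz]
  exact ⟨Or.inl ⟨_, h.fold h0, rfl⟩, pt_seg (7 * (1 + r ^ 2) / (r ^ 2 + 49)) (by positivity)
    (by rw [div_lt_one (by positivity)]; linarith) (by field_simp; ring) (by field_simp; ring)⟩

theorem good_circle {n : ℕ} {m : ZMod (n + 3) → ℕ} {δ : ℚ} (hδ : 0 < δ) (r : ℕ → ℚ)
    (h1 : ∀ i, S δ (r i) ∧ r i ^ 2 < 7) (h2 : ∀ i j, 0 < i → i < j → j ≤ n + 2 → r i < r j)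
    (h3 : r 1 ≠ 0) (h0 : m 0 ≤ 1)
    (h4 : ∀ i : ZMod (n + 3), 0 < i.val → i.val < n + 2 → m i = 0 ∨
      m i ≤ 1 ∧ r i.val = -1 ∧ r (i.val + 1) = 1)
    (h5 : ∃ E : Finset ℂ, m (-1) ≤ E.card ∧
      ∀ z ∈ E, z ∈ TT δ ∧ z ∈ openSegment ℝ (pt 0 (4 / 3)) (cir (r (n + 2)))) :
    Good (n + 3) m := by
  refine good_of_seq (fun i => if i = 0 then pt 0 (4 / 3) else cir (r i)) (rd_TT hδ)
    (fun i _ => ?_) (fun i j l a b c => ?_) (fun i hi => ?_) ?_
  · split_ifs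
    · exact Or.inr ⟨_, Or.inr (Or.inl rfl), rfl⟩
    · exact Or.inl ⟨_, (h1 i).1, rfl⟩
  · simp only [if_neg (by omega : j ≠ 0), if_neg (by omega : l ≠ 0)]
    split_ifs with h
    · exact ori_top (h2 _ _ (by omega) b c) (h1 j).2 (h1 l).2
    · exact ori_cir (h2 _ _ (by omega) a (by omega)) (h2 _ _ (by omega) b c)
  · simp only [if_neg (Nat.succ_ne_zero _)]
    split_ifs with h
    · obtain ⟨E, a, b⟩ := seg_top (h1 1).1 h3 (h1 1).2
      obtain rfl := (ZMod.val_eq_zero i).1 h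
      exact ⟨E, h0.trans a, by simpa using b⟩
    · rcases h4 i (by omega) hi with h' | ⟨a, b, c⟩
      · exact ⟨∅, h'.le, by simp⟩
      · refine ⟨{pt 0 0}, a, fun z hz => ?_⟩
        rw [Finset.mem_singleton.1 hz, b, c]
        exact ⟨Or.inr ⟨_, Or.inl rfl, rfl⟩,
          pt_seg (1 / 2) (by norm_num) (by norm_num) (by norm_num) (by norm_num)⟩
  · simpa only [if_neg (Nat.succ_ne_zero _), if_true, openSegment_symm ℝ (cir _)] using h5

theorem good_three_one {n : ℕ} {m : ZMod (n + 3) → ℕ} (h0 : m 0 ≤ 1) (h1 : m (-1) ≤ 3)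
    (h2 : ∀ j, j ≠ -1 → j ≠ 0 → m j = 0) : Good (n + 3) m := by
  obtain ⟨z, z0, z1, z2⟩ := exists_chain infinite_S1 (y := 0) (fun r h => h.2.1) (n + 2)
  refine good_circle one_pos (fun i => -z (n + 2 - i)) (fun i => ?_)
    (fun i j a b c => neg_lt_neg (z2 _ _ (by omega) (by omega)))
    (neg_ne_zero.2 (z1 _ (by omega)).2.1.ne') h0 (fun i a b => Or.inl (h2 i ?_ ?_))
    ⟨{pt 0 0, pt 0 (3 / 4), pt 0 1}, h1.trans (Finset.card_eq_three.2 ⟨_, _, _, ?_, ?_, ?_, rfl⟩).ge,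
      fun x hx => ?_⟩
  · rcases (n + 2 - i).eq_zero_or_pos with h | h
    · rw [h, z0]
      exact ⟨⟨1, 7, by norm_num, by norm_num⟩, by norm_num⟩
    · exact ⟨(z1 _ h).1.neg, by rw [neg_sq]; exact (z1 _ h).2.2⟩
  · rintro rfl
    exact b.ne (ZMod.val_neg_one _)
  · rintro rfl
    exact a.ne' ZMod.val_zero
  · exact fun h => absurd (pt_inj h) (by norm_num)
  · exact fun h => absurd (pt_inj h) (by norm_num)
  · exact fun h => absurd (pt_inj h) (by norm_num)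
  · simp only [Finset.mem_insert, Finset.mem_singleton] at hx
    simp only [Nat.sub_self, z0]
    rcases hx with rfl | rfl | rfl
    · exact ⟨Or.inr ⟨_, by simp, rfl⟩,
        pt_seg (4 / 7) (by norm_num) (by norm_num) (by norm_num) (by norm_num)⟩
    · exact ⟨Or.inr ⟨_, by simp, rfl⟩,
        pt_seg (1 / 4) (by norm_num) (by norm_num) (by norm_num) (by norm_num)⟩
    · exact ⟨Or.inr ⟨_, by simp, rfl⟩,
        pt_seg (1 / 7) (by norm_num) (by norm_num) (by norm_num) (by norm_num)⟩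

theorem good_one_one_one {n : ℕ} {m : ZMod (n + 3) → ℕ} (h0 : m 0 ≤ 1) (h1 : m (-1) ≤ 1)
    {c : ZMod (n + 3)} (c0 : c ≠ 0) (c1 : c ≠ -1) (hc : m c ≤ 1)
    (h2 : ∀ j, j ≠ -1 → j ≠ 0 → j ≠ c → m j = 0) : Good (n + 3) m := by
  obtain ⟨z, z0, z1, z2⟩ := exists_chain infinite_S2 (y := 1) (fun r h => h.2.1) (n + 2)
  have a1 : 0 < c.val := ZMod.val_pos.2 c0
  have a2 : c.val < n + 2 := lt_of_le_of_ne (by have := c.val_lt; omega) fun e =>
    c1 (ZMod.val_injective _ (e.trans (ZMod.val_neg_one _).symm))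
  have a3 : ∀ i, S 2 (z i) ∧ 0 < z i ∧ z i ^ 2 < 7 := fun i => by
    rcases i.eq_zero_or_pos with rfl | h
    · rw [z0]
      exact ⟨⟨2, 10, by norm_num, by norm_num⟩, by norm_num, by norm_num⟩
    · exact ⟨(z1 _ h).1, one_pos.trans (z1 _ h).2.1, (z1 _ h).2.2⟩
  refine good_circle two_pos (fun i => if i ≤ c.val then -z (c.val - i) else z (i - c.val - 1))
    (fun i => ?_) (fun i j a b d => ?_) ?_ h0 (fun i a b => ?_) ?_
  · split_ifs
    · exact ⟨(a3 _).1.neg, by rw [neg_sq]; exact (a3 _).2.2⟩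
    · exact ⟨(a3 _).1, (a3 _).2.2⟩
  · split_ifs
    · exact neg_lt_neg (z2 _ _ (by omega) (by omega))
    · linarith [(a3 (c.val - i)).2.1, (a3 (j - c.val - 1)).2.1]
    · omega
    · exact z2 _ _ (by omega) (by omega)
  · rw [if_pos (by omega)]
    exact neg_ne_zero.2 (a3 _).2.1.ne'
  · by_cases hi : i = c
    · subst hi
      exact Or.inr ⟨hc, by simp [z0], by simp [z0]⟩
    · refine Or.inl (h2 i ?_ ?_ hi)
      · rintro rfl
        exact b.ne (ZMod.val_neg_one _)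
      · rintro rfl
        exact a.ne' ZMod.val_zero
  · rw [if_neg (by omega)]
    obtain ⟨E, a, b⟩ := seg_top (a3 (n + 2 - c.val - 1)).1 (a3 _).2.1.ne' (a3 _).2.2
    exact ⟨E, h1.trans a, b⟩

/-- Points on an axis and two points on the other axis. -/
def LL : Set ℂ := {z | (∃ r, S 1 r ∧ z = pt 0 r) ∨ ∃ x, (x = 1 ∨ x = 7) ∧ z = pt x 0}

theorem rd_LL : RD LL := by
  have h3 : ∀ r x, S 1 r → (x = 1 ∨ x = 7) → ∃ q : ℚ, dist (pt 0 r) (pt x 0) = q := by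
    rintro r x ⟨c, e, hc, he⟩ (rfl | rfl)
    · exact pt_dist c (by rw [hc]; ring)
    · exact pt_dist e (by rw [he]; ring)
  rintro _ (⟨r, hr, rfl⟩ | ⟨y, hy, rfl⟩) _ (⟨t, ht, rfl⟩ | ⟨y', hy', rfl⟩)
  · exact pt_dist (r - t) (by ring)
  · exact h3 r y' hr hy'
  · rw [dist_comm]
    exact h3 t y ht hy
  · exact pt_dist (y - y') (by ring)

theorem line_chain (N : ℕ) : ∃ a b : ℚ, 0 < a ∧ a < b ∧ S 1 a ∧ S 1 b ∧ ∃ E : Finset ℂ,
    N ≤ E.card ∧ ∀ y, y ≤ a → ∀ x ∈ E, x ∈ LL ∧ x ∈ openSegment ℝ (pt 0 b) (pt 0 y) := by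
  obtain ⟨z, -, z1, z2⟩ := exists_chain infinite_S1 (y := 0) (fun r h => h.2.1) (N + 2)
  refine ⟨z 1, z (N + 2), (z1 1 one_pos).2.1, z2 _ _ (by omega) le_rfl, (z1 1 one_pos).1,
    (z1 _ (by omega)).1, (Finset.range N).image fun i => pt 0 (z (i + 2)), ?_, fun y hy x hx => ?_⟩
  · rw [Finset.card_image_of_injOn, Finset.card_range]
    intro i hi j hj h
    have a := Finset.mem_range.1 hi
    have b := Finset.mem_range.1 hj
    rcases lt_trichotomy i j with c | c | c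
    · exact absurd (pt_inj h) (z2 _ _ (by omega) (by omega)).ne
    · exact c
    · exact absurd (pt_inj h) (z2 _ _ (by omega) (by omega)).ne'
  · obtain ⟨i, hi, rfl⟩ := Finset.mem_image.1 hx
    have a := Finset.mem_range.1 hi
    have b := z2 1 (i + 2) (by omega) (by omega)
    have c := z2 (i + 2) (N + 2) (by omega) le_rfl
    have d : 0 < z (N + 2) - y := by linarith
    exact ⟨Or.inl ⟨_, (z1 _ (by omega)).1, rfl⟩, pt_seg ((z (N + 2) - z (i + 2)) / (z (N + 2) - y))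
      (div_pos (by linarith) d) (by rw [div_lt_one d]; linarith) (by ring) (by field_simp; ring)⟩

theorem good_triangle {m : ZMod (0 + 3) → ℕ} (h0 : m 0 ≤ 1)
    (h2 : ∀ j, j ≠ -1 → j ≠ 0 → m j = 0) : Good (0 + 3) m := by
  obtain ⟨a, b, h3, h4, -, h5, E, h6, h7⟩ := line_chain (m (-1))
  refine good_of_seq (fun i => if i = 0 then pt 0 0 else if i = 1 then pt 7 0 else pt 0 b) rd_LL
    (fun i _ => ?_) (fun i j l a b c => ?_) (fun i hi => ?_) ⟨E, h6, h7 0 h3.le⟩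
  · split_ifs
    · exact Or.inl ⟨_, ⟨1, 7, by norm_num, by norm_num⟩, rfl⟩
    · exact Or.inr ⟨_, Or.inr rfl, rfl⟩
    · exact Or.inl ⟨_, h5, rfl⟩
  · obtain ⟨rfl, rfl, rfl⟩ : i = 0 ∧ j = 1 ∧ l = 2 := by omega
    exact pt_ori (by linarith)
  · by_cases h : i = 0
    · subst h
      refine ⟨{pt 1 0}, h0, fun z hz => ?_⟩
      rw [Finset.mem_singleton.1 hz]
      exact ⟨Or.inr ⟨_, Or.inl rfl, rfl⟩,
        pt_seg (1 / 7) (by norm_num) (by norm_num) (by norm_num) (by norm_num)⟩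
    · refine ⟨∅, (h2 i ?_ h).le, by simp⟩
      rintro rfl
      exact hi.ne (ZMod.val_neg_one _)

theorem good_quad {m : ZMod (1 + 3) → ℕ} (h2 : ∀ j, j ≠ -1 → m j = 0) : Good (1 + 3) m := by
  obtain ⟨a, b, h3, h4, h5, h5', E, h6, h7⟩ := line_chain (m (-1))
  refine good_of_seq (fun i => if i = 0 then pt 0 a else if i = 1 then pt 1 0 else
    if i = 2 then pt 7 0 else pt 0 b) rd_LL
    (fun i _ => ?_) (fun i j l a b c => ?_) (fun i hi => ?_) ⟨E, h6, h7 a le_rfl⟩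
  · split_ifs
    · exact Or.inl ⟨_, h5, rfl⟩
    · exact Or.inr ⟨_, Or.inl rfl, rfl⟩
    · exact Or.inr ⟨_, Or.inr rfl, rfl⟩
    · exact Or.inl ⟨_, h5', rfl⟩
  · obtain ⟨rfl, rfl, rfl⟩ | ⟨rfl, rfl, rfl⟩ | ⟨rfl, rfl, rfl⟩ | ⟨rfl, rfl, rfl⟩ :
      i = 0 ∧ j = 1 ∧ l = 2 ∨ i = 0 ∧ j = 1 ∧ l = 3 ∨ i = 0 ∧ j = 2 ∧ l = 3 ∨
        i = 1 ∧ j = 2 ∧ l = 3 := by omega
    all_goals exact pt_ori (by linarith)
  · refine ⟨∅, (h2 i ?_).le, by simp⟩
    rintro rfl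
    exact hi.ne (ZMod.val_neg_one _)

/-- The admissible multiplicity vectors, with `a`, `b` two adjacent edges. -/
def Adm (k : ℕ) (m : ZMod k → ℕ) (a b : ZMod k) : Prop := m b ≤ 1 ∧
  ((∀ j, j ≠ a → j ≠ b → m j = 0) ∧ (m a ≤ 3 ∨ k = 3 ∨ k = 4 ∧ m b = 0) ∨
    m a ≤ 1 ∧ ∃ c, m c ≤ 1 ∧ ∀ j, j ≠ a → j ≠ b → j ≠ c → m j = 0)

theorem Adm.comp {k : ℕ} {m : ZMod k → ℕ} {a b : ZMod k} (h : Adm k m a b) (e : ZMod k ≃ ZMod k) :
    Adm k (fun i => m (e i)) (e.symm a) (e.symm b) := by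
  have he : ∀ j x, j ≠ e.symm x → e j ≠ x := fun j x h h' => h (e.eq_symm_apply.2 h')
  simp only [Adm, Equiv.apply_symm_apply]
  refine ⟨h.1, h.2.imp (fun h => ⟨fun j a b => h.1 _ (he _ _ a) (he _ _ b), h.2⟩)
    fun ⟨h1, c, h2, h3⟩ => ⟨h1, e.symm c, by simpa using h2,
      fun j a b c => h3 _ (he _ _ a) (he _ _ b) (he _ _ c)⟩⟩

theorem good_base {n : ℕ} {m : ZMod (n + 3) → ℕ} (h : Adm (n + 3) m (-1) 0) : Good (n + 3) m := by
  obtain ⟨h0, ⟨h1, h2 | h2 | ⟨h2, h3⟩⟩ | ⟨h1, c, h2, h3⟩⟩ := h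
  · exact good_three_one h0 h2 h1
  · obtain rfl : n = 0 := by omega
    exact good_triangle h0 h1
  · obtain rfl : n = 1 := by omega
    exact good_quad fun j hj => by
      by_cases h : j = 0
      · rwa [h]
      · exact h1 j hj h
  · by_cases hc : c = 0 ∨ c = -1
    · exact good_three_one h0 (by omega) fun j a b => h3 j a b (by rcases hc with rfl | rfl <;> assumption)
    · push Not at hc
      exact good_one_one_one h0 h1 hc.1 hc.2 h2 h3

theorem good_of_adm {k : ℕ} (hk : 3 ≤ k) {m : ZMod k → ℕ} {a b : ZMod k}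
    (hab : b = a + 1 ∨ a = b + 1) (h : Adm k m a b) : Good k m := by
  obtain ⟨n, rfl⟩ : ∃ n, k = n + 3 := ⟨k - 3, by omega⟩
  have key : ∀ (m : ZMod (n + 3) → ℕ) a, Adm (n + 3) m a (a + 1) → Good (n + 3) m :=
    fun m a h => Good.rot (a + 1) (good_base (by
      have := h.comp (Equiv.addRight (a + 1))
      rwa [(Equiv.symm_apply_eq _).2 (show a = -1 + (a + 1) by ring),
        (Equiv.symm_apply_eq _).2 (show a + 1 = 0 + (a + 1) by ring)] at this))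
  rcases hab with rfl | rfl
  · exact key m a h
  · refine Good.refl (key _ (-b - 2) ?_)
    have := h.comp ((Equiv.neg _).trans (Equiv.subRight 1))
    rwa [(Equiv.symm_apply_eq _).2 (show b + 1 = -(-b - 2) - 1 by ring),
      (Equiv.symm_apply_eq _).2 (show b = -(-b - 2 + 1) - 1 by ring)] at this

end Pool.Agent.Lib.MP_e5111b_co
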